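import Mathlib
import Pool.Agent.R107.QProd
import Pool.Agent.R107.RRA2
import Pool.Agent.R107.RRB2

namespace Pool.Agent.Results.MP_c002f6_nt.Nonneg

open PowerSeries PowerSeries.WithPiTopology

/-- `(q, q^4; q^5)_∞`, the product of `1 - q^n` over the `n ≥ 1` with `n ≡ 1, 4 mod 5`. -/
noncomputable def rr14 : ℤ⟦X⟧ :=
  ∏' n : ℕ, (if (n + 1) % 5 = 1 ∨ (n + 1) % 5 = 4 then 1 - X ^ (n + 1) else 1)

/-- `(q^2, q^3; q^5)_∞`, the product of `1 - q^n` over the `n ≥ 1` with `n ≡ 2, 3 mod 5`. -/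
noncomputable def rr23 : ℤ⟦X⟧ :=
  ∏' n : ℕ, (if (n + 1) % 5 = 2 ∨ (n + 1) % 5 = 3 then 1 - X ^ (n + 1) else 1)

/-- `T_{k,S}(q) = ∑_{j ≥ k} (-1)^j q^{7j(j+1)/2 - jS} (1 - q^{(2j+1)S})`, written with `j = k + i`. -/
noncomputable def T (k S : ℕ) : ℤ⟦X⟧ :=
  ∑' i : ℕ, (-1) ^ (k + i) * X ^ (7 * ((k + i) * (k + i + 1) / 2) - (k + i) * S) *
    (1 - X ^ ((2 * (k + i) + 1) * S))

/-- `F_{k,S}(q) = (-1)^k T_{k,S}(q) / (q, q^4; q^5)_∞` -/
noncomputable def F (k S : ℕ) : ℤ⟦X⟧ := (-1) ^ k * T k S * invOfUnit rr14 1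

/-- `G_{k,S}(q) = (-1)^k T_{k,S}(q) / (q^2, q^3; q^5)_∞` -/
noncomputable def G (k S : ℕ) : ℤ⟦X⟧ := (-1) ^ k * T k S * invOfUnit rr23 1

open Pool.Agent.R107 Pool.Agent.R107.QT Pool.Agent.R107.QProd
open Pool.Agent.R107.TruncTheta (R coeff_R_nonneg coeff_mul_nonneg)

lemma T_eq {plo phi lo hi : ℤ} (d : Par) (ok : Ok d plo phi lo hi) (h7 : d.Rr = 7) (k : ℕ) :
    (-1) ^ k * T k d.S = U d k := by
  have h := hasSum_U ok k
  have h2 := h.mul_left ((-1 : ℤ⟦X⟧) ^ k)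
  have h3 : ∀ i : ℕ, (-1 : ℤ⟦X⟧) ^ k * ((-1) ^ i *
      (X ^ (a d (k + i)).toNat - X ^ (b d (k + i)).toNat)) =
      (-1) ^ (k + i) * X ^ (7 * ((k + i) * (k + i + 1) / 2) - (k + i) * d.S) *
        (1 - X ^ ((2 * (k + i) + 1) * d.S)) := by
    intro i
    have hS : (k + i) * d.S ≤ 7 * ((k + i) * (k + i + 1) / 2) := by
      have h0 := a_nonneg ok (k + i)
      unfold a at h0
      rw [h7] at h0
      have : ((7 : ℕ) : ℤ) * tri (k + i) - ((k + i : ℕ) : ℤ) * d.S =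
        ((7 * tri (k + i) : ℕ) : ℤ) - (((k + i) * d.S : ℕ) : ℤ) := by push_cast; ring
      rw [this] at h0
      unfold tri at h0
      omega
    have ea : (a d (k + i)).toNat = 7 * ((k + i) * (k + i + 1) / 2) - (k + i) * d.S := by
      unfold a
      rw [h7]
      have : ((7 : ℕ) : ℤ) * tri (k + i) - ((k + i : ℕ) : ℤ) * d.S =
        ((7 * ((k + i) * (k + i + 1) / 2) - (k + i) * d.S : ℕ) : ℤ) := by
        rw [Nat.cast_sub hS]
        unfold tri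
        push_cast
        ring
      rw [this, Int.toNat_natCast]
    have eb : (b d (k + i)).toNat =
        (7 * ((k + i) * (k + i + 1) / 2) - (k + i) * d.S) + (2 * (k + i) + 1) * d.S := by
      have h0 := a_nonneg ok (k + i)
      rw [b_eq, ← ea]
      have : (2 * ((k + i : ℕ) : ℤ) + 1) * d.S = (((2 * (k + i) + 1) * d.S : ℕ) : ℤ) := by
        push_cast; ring
      rw [this]
      omega
    rw [ea, eb, pow_add, pow_add]
    ring
  simp only [h3] at h2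
  have h4 : T k d.S = (-1) ^ k * U d k := h2.tsum_eq
  rw [h4, ← mul_assoc, ← mul_pow]
  simp

lemma main {plo phi lo hi : ℤ} (d : Par) (ok : Ok d plo phi lo hi) (h7 : d.Rr = 7) (k : ℕ)
    (pr : ℕ → Prop) [DecidablePred pr] (h1 : pr d.al)
    (h2 : pr d.be ∧ d.be ≠ d.al) (h3 : (pr d.ga ∧ d.ga ≠ d.al) ∧ d.ga ≠ d.be)
    (hn : ∀ n, 0 ≤ coeff n (P d * U d k)) (n : ℕ) :
    0 ≤ coeff n ((-1) ^ k * T k d.S * invOfUnit (E pr) 1) := by
  rw [T_eq d ok h7, invOfUnit_E, R_eq_P_mul ok pr h1 h2 h3, ← mul_assoc, mul_comm (U d k)]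
  exact coeff_mul_nonneg hn (fun n => coeff_R_nonneg _ n) n

lemma main' {plo phi lo hi : ℤ} (d : Par) (ok : Ok d plo phi lo hi) (h7 : d.Rr = 7) (k : ℕ)
    (pr : ℕ → Prop) [DecidablePred pr] (h1 : pr d.al)
    (h2 : pr d.be ∧ d.be ≠ d.al) (h3 : (pr d.ga ∧ d.ga ≠ d.al) ∧ d.ga ≠ d.be)
    (e : ℕ) (he : 0 < e) (h4 : ((pr e ∧ e ≠ d.al) ∧ e ≠ d.be) ∧ e ≠ d.ga)
    (hn : ∀ n, 0 ≤ coeff n (geo e * (P d * U d k))) (n : ℕ) :
    0 ≤ coeff n ((-1) ^ k * T k d.S * invOfUnit (E pr) 1) := by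
  rw [T_eq d ok h7, invOfUnit_E, R_eq_P_mul ok pr h1 h2 h3,
    R_eq_geo_mul (fun i => ((pr i ∧ i ≠ d.al) ∧ i ≠ d.be) ∧ i ≠ d.ga) e he h4]
  have e1 : U d k * (P d * (geo e * R fun i =>
      (((pr i ∧ i ≠ d.al) ∧ i ≠ d.be) ∧ i ≠ d.ga) ∧ i ≠ e)) =
      (geo e * (P d * U d k)) * R fun i =>
      (((pr i ∧ i ≠ d.al) ∧ i ≠ d.be) ∧ i ≠ d.ga) ∧ i ≠ e := by ring
  rw [e1]
  exact coeff_mul_nonneg hn (fun n => coeff_R_nonneg _ n) n

lemma F_case (k S : ℕ) (hk : 1 ≤ k) (hS1 : 1 ≤ S) (hS2 : S ≤ 6) (n : ℕ) : 0 ≤ coeff n (F k S) := by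
  have hF : F k S = (-1) ^ k * T k S *
      invOfUnit (E (fun n => n % 5 = 1 ∨ n % 5 = 4)) 1 := rfl
  rw [hF]
  interval_cases S
  · rcases Nat.lt_or_ge 1 k with h | h
    · exact main (RRA.dd 1) RRA.ok1 rfl k _ (by decide) (by decide) (by decide)
        (fun n => RRA.nn1 k n h) n
    · have : k = 1 := by omega
      subst this
      exact main' (RRA.dd 1) RRA.ok1 rfl 1 _ (by decide) (by decide) (by decide) 6 (by norm_num)
        (by decide) (fun n => RRA.nn1c n) n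
  · exact main (RRA.dd 2) RRA.ok2 rfl k _ (by decide) (by decide) (by decide)
      (fun n => RRA.nn2 k n hk) n
  · exact main (RRA.dd 3) RRA.ok3 rfl k _ (by decide) (by decide) (by decide)
      (fun n => RRA.nn3 k n hk) n
  · exact main (RRA.dd 4) RRA.ok4 rfl k _ (by decide) (by decide) (by decide)
      (fun n => RRA.nn4 k n hk) n
  · exact main (RRA.dd 5) RRA.ok5 rfl k _ (by decide) (by decide) (by decide)
      (fun n => RRA.nn5 k n hk) n
  · exact main (RRA.dd 6) RRA.ok6 rfl k _ (by decide) (by decide) (by decide)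
      (fun n => RRA.nn6 k n hk) n

lemma G_case (k S : ℕ) (hk : 1 ≤ k) (hS1 : 1 ≤ S) (hS2 : S ≤ 6) (n : ℕ) : 0 ≤ coeff n (G k S) := by
  have hG : G k S = (-1) ^ k * T k S *
      invOfUnit (E (fun n => n % 5 = 2 ∨ n % 5 = 3)) 1 := rfl
  rw [hG]
  interval_cases S
  · rcases Nat.lt_or_ge 1 k with h | h
    · exact main (RRB.dd 1) RRB.ok1 rfl k _ (by decide) (by decide) (by decide)
        (fun n => RRB.nn1 k n h) n
    · have : k = 1 := by omega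
      subst this
      exact main' (RRB.dd 1) RRB.ok1 rfl 1 _ (by decide) (by decide) (by decide) 8 (by norm_num)
        (by decide) (fun n => RRB.nn1c n) n
  · exact main (RRB.dd 2) RRB.ok2 rfl k _ (by decide) (by decide) (by decide)
      (fun n => RRB.nn2 k n hk) n
  · exact main (RRB.dd 3) RRB.ok3 rfl k _ (by decide) (by decide) (by decide)
      (fun n => RRB.nn3 k n hk) n
  · exact main (RRB.dd 4) RRB.ok4 rfl k _ (by decide) (by decide) (by decide)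
      (fun n => RRB.nn4 k n hk) n
  · exact main (RRB.dd 5) RRB.ok5 rfl k _ (by decide) (by decide) (by decide)
      (fun n => RRB.nn5 k n hk) n
  · exact main (RRB.dd 6) RRB.ok6 rfl k _ (by decide) (by decide) (by decide)
      (fun n => RRB.nn6 k n hk) n

/-- For all `k ≥ 1` and `S ∈ {1, ..., 6}` every coefficient of `F_{k,S}` and of `G_{k,S}` is
non-negative. -/
theorem result (k S : ℕ) (hk : 1 ≤ k) (hS1 : 1 ≤ S) (hS2 : S ≤ 6) (n : ℕ) :
    0 ≤ coeff n (F k S) ∧ 0 ≤ coeff n (G k S) :=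
  ⟨F_case k S hk hS1 hS2 n, G_case k S hk hS1 hS2 n⟩

end Pool.Agent.Results.MP_c002f6_nt.Nonneg
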